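import Mathlib
import Pool.Agent.H38.LR.S8.Y822.Corr
import Pool.Agent.H38.LR.S8.W23.DC.Fin4
import Pool.Agent.H38.LR.S8.W23.DC.Fin5
import Pool.Agent.H38.LR.S8.W52.DC.PT
import Pool.Agent.H38.LR.S8.W120.DC.LN
import Pool.Agent.H38.LR.S8.W586.DC.ER
import Pool.Agent.H38.LR.S8.W366.DC.SFX
import Pool.Agent.H38.LR.S8.W505.DC.MI
import Pool.Agent.H38.LR.S8.W505.DC.MT
import Pool.Agent.H38.LR.S8.W378.DC.MP
import Pool.Agent.H38.LR.S8.W378.DC.FA
import Pool.Agent.H38.LR.S8.W120.DC.NU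

/-! The weighted linear sieve with level `111/200` for a general weighted set. -/

set_option autoImplicit false

namespace Pool.Agent.Y822.Lin

open Finset
open Pool.Agent.W23
open Pool.Agent.W23.DC (tt pr LL MM Siz Mer SF facR mem_pr siz cw cw_nonneg cw_le Wf Wf_ge ind ta za Lv
  mem_EE ta_pos ta_le WFac)

/-- the moduli of the error term -/
noncomputable def FF (N : ℕ) (ε₁ : ℝ) : Finset ℕ := by
  classical
  exact (facR N (111 / 200) (ε₁ / 2) (1 / 500)).filter (fun d => Squarefree d ∧ ∀ p ∈ d.primeFactors, ε₁ ≤ tt N p)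

lemma mem_FF {N : ℕ} {ε₁ : ℝ} {d : ℕ} : d ∈ FF N ε₁ ↔ d ∈ facR N (111 / 200) (ε₁ / 2) (1 / 500) ∧
    Squarefree d ∧ ∀ p ∈ d.primeFactors, ε₁ ≤ tt N p := by
  unfold FF
  rw [mem_filter]

/-- small primes contribute little -/
lemma inv_diff {N : ℕ} (hN : 2 ≤ N) {ε₁ : ℝ} (S : Finset ℕ) (hS : ∀ p ∈ S, p.Prime ∧ ε₁ ≤ tt N p)
    (y : ℕ) (hy : 1 ≤ y) (hyN : (y : ℝ) < (N : ℝ) ^ ε₁) :
    ∑ p ∈ S, (1 / ((p : ℝ) - 1) - 1 / (p : ℝ)) ≤ 2 / y := by
  have h1 : ∀ p ∈ S, y < p := by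
    intro p hp
    have h2 := (DC.le_tt_iff hN (hS p hp).1.pos ε₁).1 (hS p hp).2
    exact_mod_cast lt_of_lt_of_le hyN h2
  have h2 := inv_sq_gt hy S h1
  calc ∑ p ∈ S, (1 / ((p : ℝ) - 1) - 1 / (p : ℝ)) ≤ ∑ p ∈ S, 2 * (1 / (p : ℝ) ^ 2) := by
        refine sum_le_sum fun p hp => ?_
        have hp2 : (2 : ℝ) ≤ p := by exact_mod_cast (hS p hp).1.two_le
        have h3 : (0 : ℝ) < p - 1 := by linarith
        have h4 : (0 : ℝ) < p := by linarith
        have e : 1 / ((p : ℝ) - 1) - 1 / (p : ℝ) = 1 / (((p : ℝ) - 1) * p) := by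
          field_simp
          ring
        rw [e, ← mul_div_assoc, mul_one, div_le_div_iff₀ (by positivity) (by positivity)]
        nlinarith
    _ = 2 * ∑ p ∈ S, 1 / (p : ℝ) ^ 2 := by rw [mul_sum]
    _ ≤ 2 * (1 / y) := mul_le_mul_of_nonneg_left h2 (by norm_num)
    _ = 2 / y := by ring

lemma one_div_le_g {p : ℕ} (hp : p.Prime) : 1 / (p : ℝ) ≤ 1 / ((p : ℝ) - 1) := by
  have hp2 : (2 : ℝ) ≤ p := by exact_mod_cast hp.two_le
  exact one_div_le_one_div_of_le (by linarith) (by linarith)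

theorem mer_of (ε₁ w η : ℝ) (hε : 0 < ε₁) (hw : w ≤ 1) (hη : 0 < η) :
    ∃ N₀ : ℕ, ∀ N : ℕ, N₀ ≤ N → Mer (pr N ε₁ w) (tt N) (fun p => 1 / (p : ℝ)) ε₁ w η := by
  obtain ⟨N₀, H⟩ := Pool.Agent.W378.DC.MP ε₁ (η / 2) hε (by positivity)
  obtain ⟨y, hy1, hy2⟩ : ∃ y : ℕ, 1 ≤ y ∧ 2 / (y : ℝ) ≤ η / 2 := by
    obtain ⟨y, hy⟩ := exists_nat_ge (4 / η + 1)
    have h1 : 0 < 4 / η := by positivity
    have hy1 : (1 : ℝ) ≤ y := by linarith
    refine ⟨y, by exact_mod_cast hy1, ?_⟩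
    rw [div_le_div_iff₀ (by linarith) (by norm_num)]
    have h2 : 4 / η ≤ y := by linarith
    rw [div_le_iff₀ hη] at h2
    linarith
  obtain ⟨N₁, hN₁⟩ := Filter.eventually_atTop.1
    (((tendsto_rpow_atTop hε).comp (tendsto_natCast_atTop_atTop (R := ℝ))).eventually_gt_atTop (y : ℝ))
  refine ⟨max (max N₀ N₁) 2, fun N hN a b ha hab hb => ?_⟩
  have h1 := H N (((le_max_left _ _).trans (le_max_left _ _)).trans hN) a b ha hab (hb.trans hw)
  have h2 : (y : ℝ) < (N : ℝ) ^ ε₁ := hN₁ N (((le_max_right _ _).trans (le_max_left _ _)).trans hN)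
  have hN2 : 2 ≤ N := (le_max_right _ _).trans hN
  rw [DC.pr_sub N ε₁ w a b ha hb]
  have h3 := inv_diff hN2 (ε₁ := ε₁) (pr N a b) (fun p hp => ⟨(mem_pr.1 hp).2.1, ha.trans (mem_pr.1 hp).2.2.1⟩)
    y hy1 h2
  have h4 : 0 ≤ ∑ p ∈ pr N a b, (1 / ((p : ℝ) - 1) - 1 / (p : ℝ)) :=
    sum_nonneg fun p hp => sub_nonneg.2 (one_div_le_g (mem_pr.1 hp).2.1)
  rw [sum_sub_distrib] at h3 h4
  rw [abs_le] at h1 ⊢
  constructor <;> linarith

section
variable {N : ℕ} {ε₁ : ℝ}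

lemma LL_zero (P : Finset ℕ) (t : ℕ → ℝ) (k : ℕ) (b : Bool) (τ ζ : ℝ) (d : ℕ) :
    LL P t (fun _ => 0) k b τ ζ d = 0 := by
  have h := Pool.Agent.W120.DC.LN.1 P t (∅ : Finset ℕ) (fun _ _ => 0) k b τ ζ d
  simpa using h

lemma LL_smul (P : Finset ℕ) (t : ℕ → ℝ) (x : ℝ) (G : ℕ → ℝ) (k : ℕ) (b : Bool) (τ ζ : ℝ) (d : ℕ) :
    LL P t (fun e => x * G e) k b τ ζ d = x * LL P t G k b τ ζ d := by
  have h := Pool.Agent.W120.DC.LN.2.1 P t x G (fun _ => 0) k b τ ζ d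
  rw [LL_zero] at h
  simpa using h

lemma inv_mul (P : Finset ℕ) (hP : ∀ p ∈ P, p.Prime) : ∀ d, ∀ p ∈ P, ¬ p ∣ d →
    (fun e : ℕ => 1 / (e : ℝ)) (d * p) = (fun e : ℕ => 1 / (e : ℝ)) d * (1 / (p : ℝ)) := by
  intro d p _ _
  simp only
  push_cast
  rw [one_div_mul_one_div]

/-- the recursion for a weighted set -/
theorem LL_eq (hN : 2 ≤ N) (Ω : Finset ℕ) (w : ℕ → ℝ) (m : ℕ → ℕ) (X : ℝ) (K : ℕ) (b : Bool) (τ ζ : ℝ) (d : ℕ)
    (hd : ∀ p ∈ pr N ε₁ (1 / 7), tt N p < ζ → ¬ p ∣ d) :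
    ∑ n ∈ Ω, w n * LL (pr N ε₁ (1 / 7)) (tt N) (ind (m n)) K b τ ζ d =
      X * (1 / (d : ℝ) * MM (pr N ε₁ (1 / 7)) (tt N) (fun p => 1 / (p : ℝ)) K b τ ζ) +
      LL (pr N ε₁ (1 / 7)) (tt N) (fun e => (∑ n ∈ Ω, w n * ind (m n) e) - X * (1 / (e : ℝ))) K b τ ζ d := by
  have h0 : ∑ n ∈ Ω, w n * LL (pr N ε₁ (1 / 7)) (tt N) (ind (m n)) K b τ ζ d =
      LL (pr N ε₁ (1 / 7)) (tt N) (fun e => ∑ n ∈ Ω, w n * ind (m n) e) K b τ ζ d := by
    rw [Pool.Agent.W120.DC.LN.1 (pr N ε₁ (1 / 7)) (tt N) Ω (fun n e => w n * ind (m n) e) K b τ ζ d]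
    exact sum_congr rfl fun n _ => (LL_smul _ _ _ _ _ _ _ _ _).symm
  have h1 : (fun e => ∑ n ∈ Ω, w n * ind (m n) e) =
      (fun e => X * (fun e : ℕ => 1 / (e : ℝ)) e +
        (fun e => (∑ n ∈ Ω, w n * ind (m n) e) - X * (1 / (e : ℝ))) e) := by
    funext e
    simp only
    ring
  rw [h0, h1, Pool.Agent.W120.DC.LN.2.1 (pr N ε₁ (1 / 7)) (tt N) X (fun e : ℕ => 1 / (e : ℝ))
    (fun e => (∑ n ∈ Ω, w n * ind (m n) e) - X * (1 / (e : ℝ))) K b τ ζ d,
    Pool.Agent.W120.DC.LN.2.2 (pr N ε₁ (1 / 7)) (tt N) (siz hN _ _) (fun p => 1 / (p : ℝ))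
      (fun e : ℕ => 1 / (e : ℝ)) (inv_mul _ (siz hN _ _).pr) K b τ ζ d hd]

/-- the first error term -/
theorem err1 (hN : 2 ≤ N) (hε : 0 < ε₁) (r : ℕ → ℝ) :
    ∑ e ∈ DC.EE (pr N ε₁ (1 / 7)) (tt N) (111 / 200) (1 / 7), |r (1 * e)| ≤
      ∑ d ∈ insert 1 (FF N ε₁), |r d| := by
  classical
  simp only [one_mul]
  apply Finset.sum_le_sum_of_subset_of_nonneg
  · intro e he
    obtain ⟨h2, h3, h4, h5⟩ := mem_EE he
    rw [mem_insert]
    rcases Nat.lt_or_ge 1 e with h | h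
    · right
      rw [mem_FF]
      exact ⟨(Pool.Agent.W378.DC.FA N ε₁ hN hε).1 e h h3 (fun p hp => (h4 p hp).1) h5, h3,
        fun p hp => (h4 p hp).1⟩
    · left; omega
  · intro _ _ _
    exact abs_nonneg _

/-- the second error term -/
theorem err2 (hN : 2 ≤ N) (hε : 0 < ε₁) (hε2 : ε₁ ≤ 1 / 25) (r : ℕ → ℝ) :
    ∑ q ∈ pr N (1 / 7) (119 / 250),
      ∑ e ∈ DC.EE (pr N ε₁ (1 / 7)) (tt N) (ta N q) (za N q), |r (q * e)| ≤
      ∑ d ∈ insert 1 (FF N ε₁), |r d| := by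
  classical
  rw [Finset.sum_sigma' (f := fun q e => |r (q * e)|)]
  have hinj : Set.InjOn (fun x : (_ : ℕ) × ℕ => x.1 * x.2)
      ((pr N (1 / 7) (119 / 250)).sigma
        (fun q => DC.EE (pr N ε₁ (1 / 7)) (tt N) (ta N q) (za N q)) : Finset ((_ : ℕ) × ℕ)) := by
    rintro ⟨q, e⟩ hqe ⟨q', e'⟩ hqe' heq
    rw [mem_coe, mem_sigma] at hqe hqe'
    simp only at hqe hqe' heq
    have hq := mem_pr.1 hqe.1
    have hq' := mem_pr.1 hqe'.1
    obtain ⟨h1, h2, h3, h4⟩ := mem_EE hqe.2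
    obtain ⟨h1', h2', h3', h4'⟩ := mem_EE hqe'.2
    have hqq : q = q' := by
      have hd : q ∣ q' * e' := heq ▸ Dvd.intro e rfl
      rcases (hq.2.1.dvd_mul).1 hd with h | h
      · exact (Nat.prime_dvd_prime_iff_eq hq.2.1 hq'.2.1).1 h
      · exfalso
        have := (h3' q (Nat.mem_primeFactors.2 ⟨hq.2.1, h, h1'⟩)).2
        linarith [hq.2.2.1]
    subst hqq
    have : e = e' := Nat.eq_of_mul_eq_mul_left hq.2.1.pos heq
    rw [this]
  calc ∑ x ∈ (pr N (1 / 7) (119 / 250)).sigma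
        (fun q => DC.EE (pr N ε₁ (1 / 7)) (tt N) (ta N q) (za N q)), |r (x.1 * x.2)|
      = ∑ d ∈ ((pr N (1 / 7) (119 / 250)).sigma
        (fun q => DC.EE (pr N ε₁ (1 / 7)) (tt N) (ta N q) (za N q))).image (fun x => x.1 * x.2),
          |r d| := by
        rw [Finset.sum_image hinj]
    _ ≤ _ := by
        apply Finset.sum_le_sum_of_subset_of_nonneg
        · intro d hd
          rw [mem_image] at hd
          obtain ⟨⟨q, e⟩, hqe, rfl⟩ := hd
          rw [mem_sigma] at hqe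
          simp only at hqe ⊢
          have hq := mem_pr.1 hqe.1
          obtain ⟨h1, h2, h3, h4⟩ := mem_EE hqe.2
          have hnd : ¬ q ∣ e := by
            intro h
            have := (h3 q (Nat.mem_primeFactors.2 ⟨hq.2.1, h, h1⟩)).2
            linarith [hq.2.2.1]
          rw [mem_insert]
          right
          rw [mem_FF]
          refine ⟨(Pool.Agent.W378.DC.FA N ε₁ hN hε).2 q e (Lv (tt N q)) hq.2.1 hnd h1 h2 (fun p hp => (h3 p hp).1)
            (by linarith [hq.2.2.1]) ?_ ?_ ?_ h4, ?_, ?_⟩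
          · unfold Lv
            split_ifs with h
            · linarith
            · linarith [hq.2.2.2]
          · unfold Lv
            split_ifs with h <;> norm_num
          · unfold Lv
            split_ifs with h
            · linarith
            · linarith [hq.2.2.2]
          · have hcop : Nat.Coprime q e := (hq.2.1.coprime_iff_not_dvd).2 hnd
            exact (Nat.squarefree_mul hcop).2 ⟨hq.2.1.prime.squarefree, h2⟩
          · intro p hp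
            rw [Nat.primeFactors_mul hq.2.1.ne_zero h1, mem_union, hq.2.1.primeFactors, mem_singleton] at hp
            rcases hp with rfl | hp
            · linarith [hq.2.2.1]
            · exact (h3 p hp).1
        · intro _ _ _
          exact abs_nonneg _

end

/-- **the weighted sieve** -/
theorem lowW : ∃ c₀ : ℝ, 0 < c₀ ∧ ∀ ε₁ : ℝ, 0 < ε₁ → ε₁ ≤ 1 / 25 → ∃ N₀ : ℕ, ∀ N : ℕ, N₀ ≤ N →
      ∀ (Ω : Finset ℕ) (w : ℕ → ℝ) (m : ℕ → ℕ) (X : ℝ), (∀ n ∈ Ω, 0 ≤ w n) → 0 ≤ X →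
      c₀ * ε₁ * X - 3 * ∑ d ∈ insert 1 (FF N ε₁), |(∑ n ∈ Ω, w n * ind (m n) d) - X * (1 / (d : ℝ))| ≤
        ∑ n ∈ Ω, w n * Wf N ε₁ (m n) := by
  classical
  obtain ⟨A0, F, f, hS⟩ := Pool.Agent.W366.DC.SFX
  set J : ℝ := 19 / 17 * ((∫ x in (1 / 7 : ℝ)..(11 / 25),
      (1 - x / (119 / 250)) / (x * (111 / 200 - x))) +
    ∫ x in (11 / 25 : ℝ)..(119 / 250), (1 - x / (119 / 250)) / (x * (261 / 500 - x))) with hJ
  set Z : ℝ := Real.log (577 / 200) / (111 / 200) with hZ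
  have hJZ : J < Z := Pool.Agent.W120.DC.NU
  set c₂ : ℝ := Z - J with hc₂
  have hc₂0 : 0 < c₂ := by rw [hc₂]; linarith
  have hA0 := hS.pos
  refine ⟨A0 * c₂ / 2, by positivity, ?_⟩
  intro ε₁ hε hε2
  obtain ⟨η, hη0, HM⟩ := Pool.Agent.W505.DC.MT Pool.Agent.W505.DC.MI A0 F f hS ε₁ (ε₁ * A0 * c₂ / 32) ⌈1 / ε₁⌉₊ hε (by linarith)
    (by positivity)
  obtain ⟨N₁, hN₁⟩ := mer_of ε₁ (1 / 7) η hε (by norm_num) hη0
  obtain ⟨N₂, hN₂⟩ := DC.QS Pool.Agent.W505.DC.MI Pool.Agent.W378.DC.MP (c₂ / 4) (by positivity)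
  obtain ⟨N₃, hN₃⟩ := Pool.Agent.W378.DC.MP (1 / 7) 1 (by norm_num) one_pos
  refine ⟨max (max N₁ N₂) (max N₃ 2), ?_⟩
  intro N hN Ω w m X hw hX
  have hNN₁ : N₁ ≤ N := ((le_max_left _ _).trans (le_max_left _ _)).trans hN
  have hNN₂ : N₂ ≤ N := ((le_max_right _ _).trans (le_max_left _ _)).trans hN
  have hNN₃ : N₃ ≤ N := ((le_max_left _ _).trans (le_max_right _ _)).trans hN
  have hN2 : 2 ≤ N := ((le_max_right _ _).trans (le_max_right _ _)).trans hN
  set P := pr N ε₁ (1 / 7) with hP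
  set Q := pr N (1 / 7) (119 / 250) with hQ
  set g : ℕ → ℝ := fun p => 1 / (p : ℝ) with hg
  set K := ⌈1 / ε₁⌉₊ with hK
  set r : ℕ → ℝ := fun e => (∑ n ∈ Ω, w n * ind (m n) e) - X * (1 / (e : ℝ)) with hr
  set R := ∑ d ∈ insert 1 (FF N ε₁), |r d| with hR
  have hR0 : 0 ≤ R := Finset.sum_nonneg fun _ _ => abs_nonneg _
  have hKε : 1 ≤ (K + 2) * ε₁ := by
    have h1 : 1 / ε₁ ≤ K := Nat.le_ceil _
    have h2 : 1 / ε₁ * ε₁ = 1 := by field_simp
    nlinarith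
  have hg0 : ∀ p ∈ P, 0 ≤ g p := fun p _ => by rw [hg]; positivity
  have HM' := HM P (tt N) g (1 / 7) (by norm_num) hg0 (fun p hp => (mem_pr.1 hp).2.2.1)
    (hN₁ N hNN₁) K le_rfl
  -- the main terms
  have hminus : ε₁ * A0 * Z - ε₁ * A0 * c₂ / 32 ≤ MM P (tt N) g K false (111 / 200) (1 / 7) := by
    have h1 := (HM' (111 / 200) (1 / 7) (by linarith) (by linarith) le_rfl (by norm_num)
      (by norm_num)).2 (by norm_num)
    have h2 : ε₁ / (1 / 7) * f (111 / 200 / (1 / 7)) = ε₁ * A0 * Z := by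
      rw [hS.f4 _ (by norm_num) (by norm_num), hZ]
      have : (111 / 200 / (1 / 7) - 1 : ℝ) = 577 / 200 := by norm_num
      rw [this]
      ring
    rw [h2] at h1
    exact h1
  have hplus : ∀ q ∈ Q, MM P (tt N) g K true (ta N q) (za N q) ≤
      ε₁ * A0 / ta N q + ε₁ * A0 * c₂ / 32 := by
    intro q hq
    have h0 := ta_pos hq
    have h1 := ta_le hq
    have h2 : za N q ≤ ta N q := min_le_right _ _
    have h3 : ε₁ ≤ za N q := le_min (by linarith) (by linarith)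
    have h4 : ta N q ≤ 1 := by
      have := (mem_pr.1 hq).2.2.1
      unfold ta Lv
      split_ifs <;> linarith
    have h5 := (HM' (ta N q) (za N q) (by linarith) h3 (min_le_left _ _) h2 h4).1
    have h6 : 0 < za N q := by linarith
    have h7 : ε₁ / za N q * F (ta N q / za N q) = ε₁ * A0 / ta N q := by
      rw [hS.F3 _ ((one_le_div h6).2 h2) ((div_le_iff₀ h6).2 h1)]
      field_simp
    rw [h7] at h5
    exact h5
  -- the recursion, summed
  have e1 := LL_eq hN2 (ε₁ := ε₁) Ω w m X K false (111 / 200) (1 / 7) 1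
    (fun p hp _ h => (mem_pr.1 hp).2.1.one_lt.ne' (Nat.dvd_one.1 h))
  have e2 : ∀ q ∈ Q, ∑ n ∈ Ω, w n * LL P (tt N) (ind (m n)) K true (ta N q) (za N q) q =
      X * (1 / (q : ℝ) * MM P (tt N) g K true (ta N q) (za N q)) +
        LL P (tt N) r K true (ta N q) (za N q) q := by
    intro q hq
    exact LL_eq hN2 (ε₁ := ε₁) Ω w m X K true (ta N q) (za N q) q (fun p hp _ h => by
      have h4 := (Nat.prime_dvd_prime_iff_eq (mem_pr.1 hp).2.1 (mem_pr.1 hq).2.1).1 h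
      have h5 := (mem_pr.1 hp).2.2.2
      have h6 := (mem_pr.1 hq).2.2.1
      rw [h4] at h5
      linarith)
  have hsum : ∑ n ∈ Ω, w n * (LL P (tt N) (ind (m n)) K false (111 / 200) (1 / 7) 1 -
      ∑ q ∈ Q, cw N q * LL P (tt N) (ind (m n)) K true (ta N q) (za N q) q) ≤
      ∑ n ∈ Ω, w n * Wf N ε₁ (m n) :=
    Finset.sum_le_sum fun n hn => mul_le_mul_of_nonneg_left (Wf_ge Pool.Agent.W52.DC.PT hN2 K _) (hw n hn)
  have hsplit : ∑ n ∈ Ω, w n * (LL P (tt N) (ind (m n)) K false (111 / 200) (1 / 7) 1 -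
      ∑ q ∈ Q, cw N q * LL P (tt N) (ind (m n)) K true (ta N q) (za N q) q) =
      ∑ n ∈ Ω, w n * LL P (tt N) (ind (m n)) K false (111 / 200) (1 / 7) 1 -
      ∑ q ∈ Q, cw N q * ∑ n ∈ Ω, w n * LL P (tt N) (ind (m n)) K true (ta N q) (za N q) q := by
    simp only [mul_sub, Finset.sum_sub_distrib, Finset.mul_sum]
    congr 1
    rw [Finset.sum_comm]
    refine sum_congr rfl fun q _ => sum_congr rfl fun n _ => ?_
    ring
  rw [hsplit] at hsum
  have e3 : ∑ q ∈ Q, cw N q * ∑ n ∈ Ω, w n * LL P (tt N) (ind (m n)) K true (ta N q) (za N q) q =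
      ∑ q ∈ Q, cw N q * (X * (1 / (q : ℝ) *
        MM P (tt N) g K true (ta N q) (za N q)) + LL P (tt N) r K true (ta N q) (za N q) q) := by
    apply Finset.sum_congr rfl
    intro q hq
    rw [e2 q hq]
  rw [e3, e1] at hsum
  -- the errors
  have hE1 : |LL P (tt N) r K false (111 / 200) (1 / 7) 1| ≤ R :=
    (Pool.Agent.W586.DC.ER P (tt N) (siz hN2 _ _) r K false (111 / 200) (1 / 7) 1 (by norm_num)
      (fun _ => by norm_num)).trans (err1 hN2 hε r)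
  have hE2 : ∑ q ∈ Q, cw N q * LL P (tt N) r K true (ta N q) (za N q) q ≤ 19 / 17 * R := by
    calc ∑ q ∈ Q, cw N q * LL P (tt N) r K true (ta N q) (za N q) q
        ≤ ∑ q ∈ Q, 19 / 17 * ∑ e ∈ DC.EE P (tt N) (ta N q) (za N q), |r (q * e)| := by
          apply Finset.sum_le_sum
          intro q hq
          have h1 := Pool.Agent.W586.DC.ER P (tt N) (siz hN2 _ _) r K true (ta N q) (za N q) q
            (by have := ta_pos hq; linarith) (fun h => by simp at h)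
          have h2 := cw_nonneg q hq
          have h3 := cw_le hN2 q hq
          calc cw N q * LL P (tt N) r K true (ta N q) (za N q) q
              ≤ cw N q * |LL P (tt N) r K true (ta N q) (za N q) q| :=
                mul_le_mul_of_nonneg_left (le_abs_self _) h2
            _ ≤ 19 / 17 * ∑ e ∈ DC.EE P (tt N) (ta N q) (za N q), |r (q * e)| :=
                mul_le_mul h3 h1 (abs_nonneg _) (by norm_num)
      _ = 19 / 17 * ∑ q ∈ Q, ∑ e ∈ DC.EE P (tt N) (ta N q) (za N q), |r (q * e)| := by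
          rw [Finset.mul_sum]
      _ ≤ 19 / 17 * R := mul_le_mul_of_nonneg_left (err2 hN2 hε hε2 r) (by norm_num)
  -- the sum over `q`
  have hgle : ∀ q ∈ Q, g q ≤ 1 / ((q : ℝ) - 1) := fun q hq => one_div_le_g (mem_pr.1 hq).2.1
  have hq1 : ∑ q ∈ Q, g q * (cw N q / ta N q) ≤ J + c₂ / 4 := by
    have h1 := hN₂ N hNN₂
    refine le_trans ?_ h1
    refine sum_le_sum fun q hq => ?_
    have h2 := cw_nonneg q hq
    have h3 := ta_pos hq
    have h4 : 0 ≤ cw N q / ta N q := div_nonneg h2 (by linarith)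
    exact mul_le_mul_of_nonneg_right (hgle q hq) h4
  have hq2 : ∑ q ∈ Q, g q ≤ 3 := by
    have h1 := (abs_le.1 (hN₃ N hNN₃ (1 / 7) (119 / 250) le_rfl (by norm_num) (by norm_num))).2
    have h2 : Real.log (119 / 250 / (1 / 7)) ≤ 2 := by
      rw [Real.log_le_iff_le_exp (by norm_num)]
      have h3 := Real.add_one_le_exp (1 : ℝ)
      have h4 : Real.exp 2 = Real.exp 1 * Real.exp 1 := by
        rw [← Real.exp_add]
        norm_num
      nlinarith
    have h3 : ∑ q ∈ Q, g q ≤ ∑ q ∈ Q, 1 / ((q : ℝ) - 1) := sum_le_sum hgle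
    linarith
  have hq3 : ∑ q ∈ Q, cw N q * (X * (1 / (q : ℝ) *
        MM P (tt N) g K true (ta N q) (za N q))) ≤
      X * (ε₁ * A0 * (J + c₂ / 4) + ε₁ * A0 * c₂ / 32 * (19 / 17 * 3)) := by
    calc ∑ q ∈ Q, cw N q * (X * (1 / (q : ℝ) *
          MM P (tt N) g K true (ta N q) (za N q)))
        ≤ ∑ q ∈ Q, X * (ε₁ * A0 * (g q * (cw N q / ta N q)) +
            ε₁ * A0 * c₂ / 32 * (19 / 17 * g q)) := by
          apply Finset.sum_le_sum
          intro q hq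
          have h1 := hplus q hq
          have h2 := cw_nonneg q hq
          have h3 := cw_le hN2 q hq
          have h4 : 0 ≤ g q := by rw [hg]; positivity
          have h5 := ta_pos hq
          have h7 : cw N q * (g q * MM P (tt N) g K true (ta N q) (za N q)) ≤
              ε₁ * A0 * (g q * (cw N q / ta N q)) + ε₁ * A0 * c₂ / 32 * (19 / 17 * g q) := by
            calc cw N q * (g q * MM P (tt N) g K true (ta N q) (za N q))
                ≤ cw N q * (g q * (ε₁ * A0 / ta N q + ε₁ * A0 * c₂ / 32)) := by gcongr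
              _ = ε₁ * A0 * (g q * (cw N q / ta N q)) +
                  ε₁ * A0 * c₂ / 32 * (cw N q * g q) := by ring
              _ ≤ _ := by gcongr
          calc cw N q * (X * (1 / (q : ℝ) *
                MM P (tt N) g K true (ta N q) (za N q)))
              = X * (cw N q * (g q * MM P (tt N) g K true (ta N q) (za N q))) := by
                simp only [hg]
                ring
            _ ≤ _ := mul_le_mul_of_nonneg_left h7 hX
      _ = X * (ε₁ * A0 * (∑ q ∈ Q, g q * (cw N q / ta N q)) +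
            ε₁ * A0 * c₂ / 32 * (19 / 17 * ∑ q ∈ Q, g q)) := by
          rw [← Finset.mul_sum, Finset.sum_add_distrib, ← Finset.mul_sum, ← Finset.mul_sum,
            ← Finset.mul_sum]
      _ ≤ _ := by
          have h1 : 0 ≤ ε₁ * A0 := by positivity
          have h2 : 0 ≤ ε₁ * A0 * c₂ / 32 := by positivity
          gcongr
  have e4 : ∑ q ∈ Q, cw N q * (X * (1 / (q : ℝ) *
        MM P (tt N) g K true (ta N q) (za N q)) + LL P (tt N) r K true (ta N q) (za N q) q) =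
      ∑ q ∈ Q, cw N q * (X * (1 / (q : ℝ) *
        MM P (tt N) g K true (ta N q) (za N q))) +
      ∑ q ∈ Q, cw N q * LL P (tt N) r K true (ta N q) (za N q) q := by
    rw [← Finset.sum_add_distrib]
    apply Finset.sum_congr rfl
    intro q _
    ring
  rw [e4] at hsum
  have hmain : X * (ε₁ * A0 * Z - ε₁ * A0 * c₂ / 32) ≤
      X * (1 / ((1 : ℕ) : ℝ) * MM P (tt N) g K false (111 / 200) (1 / 7)) := by
    apply mul_le_mul_of_nonneg_left _ hX
    norm_num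
    linarith
  have hE1' := (abs_le.1 hE1).1
  have hfin : A0 * c₂ / 2 * ε₁ * X ≤
      X * (ε₁ * A0 * Z - ε₁ * A0 * c₂ / 32) -
      X * (ε₁ * A0 * (J + c₂ / 4) + ε₁ * A0 * c₂ / 32 * (19 / 17 * 3)) := by
    have h1 : X * (ε₁ * A0 * Z - ε₁ * A0 * c₂ / 32) -
      X * (ε₁ * A0 * (J + c₂ / 4) + ε₁ * A0 * c₂ / 32 * (19 / 17 * 3)) =
        X * (ε₁ * A0 * c₂) * (1 - 1 / 32 - 1 / 4 - 57 / 544) := by
      rw [hc₂]
      ring
    rw [h1]
    have h2 : 0 ≤ X * (ε₁ * A0 * c₂) := by positivity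
    nlinarith
  linarith

end Pool.Agent.Y822.Lin
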